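import Pool.Agent.N928.FG.Stm
import Pool.Agent.Helper23.Haagerup

/-!
# Project FG (helper928), part TRI: the trilinear inequality (helper591)
-/

set_option autoImplicit false

namespace Pool.Agent.N591.FG

open Pool.Agent.N928.FG
open Pool.Agent.Helper125 Pool.Agent.Helper125.Gam

/-- the elements of `A` with coordinates in `[-r, r]` -/
noncomputable def Bl (r : ℕ) : Finset A :=
  (Fintype.piFinset (fun _ : Fin 6 => Finset.Icc (-(r : ℤ)) r)).map
    ⟨Multiplicative.ofAdd, Multiplicative.ofAdd.injective⟩

theorem mem_Bl {r : ℕ} {c : A} (h : nrm c ≤ r) : c ∈ Bl r := by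
  rw [Bl, Finset.mem_map]
  refine ⟨Multiplicative.toAdd c, ?_, rfl⟩
  rw [Fintype.mem_piFinset]
  intro i
  have h1 : (cd c i).natAbs ≤ nrm c :=
    Finset.single_le_sum (f := fun i => (cd c i).natAbs) (fun _ _ => Nat.zero_le _)
      (Finset.mem_univ i)
  have h2 : (Multiplicative.toAdd c i).natAbs ≤ r := h1.trans h
  rw [Finset.mem_Icc]
  constructor <;> omega

theorem card_Bl (r : ℕ) : (Bl r).card = (2 * r + 1) ^ 6 := by
  rw [Bl, Finset.card_map, Fintype.card_piFinset, Finset.prod_const, Finset.card_univ,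
    Fintype.card_fin, Int.card_Icc]
  congr 1
  omega

theorem t_TRI : S_CANC → S_TRI := by
  classical
  rintro ⟨pre, hpre⟩
  refine ⟨15, fun r U V C f g h hU hf hg hC hh => ?_⟩
  rcases Nat.eq_zero_or_pos r with hr | hr
  · have hU0 : U = ∅ := Finset.eq_empty_of_forall_notMem fun a ha => by
      have := hU a ha
      omega
    rw [hU0, Finset.sum_empty]
    positivity
  · obtain ⟨T, hT⟩ : ∃ T : Finset (ℕ × ℕ × Bool × A),
        T = Finset.range r ×ˢ Finset.range r ×ˢ Finset.univ ×ˢ Bl r := ⟨_, rfl⟩
    have key := Pool.Agent.Helper23.Haagerup.many_types T (fun t x => pre t.1 x)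
      (fun t x => pre t.2.1 x * inc t.2.2.1 t.2.2.2) U V f g h hf hg C hC hh (by
        intro a ha b hb
        obtain ⟨i, j, t, c, hi, hj, hc, h1, h2⟩ := hpre a b
        have hr' := hU a ha
        refine ⟨(i, j, t, c), ?_, h1, h2⟩
        rw [hT, Finset.mem_product, Finset.mem_product, Finset.mem_product]
        have g1 : i < r := by omega
        have g2 : j < r := by omega
        have g3 : nrm c ≤ r := by omega
        exact ⟨Finset.mem_range.2 g1, Finset.mem_range.2 g2, Finset.mem_univ _, mem_Bl g3⟩)
    refine key.trans (mul_le_mul_of_nonneg_right ?_ (by positivity))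
    have hcard : T.card ≤ (r + 1) ^ 15 := by
      rw [hT, Finset.card_product, Finset.card_product, Finset.card_product, Finset.card_range,
        Finset.card_univ, Fintype.card_bool, card_Bl]
      calc r * (r * (2 * (2 * r + 1) ^ 6)) ≤
            (r + 1) * ((r + 1) * (2 * (2 * (r + 1)) ^ 6)) := by
            gcongr <;> omega
        _ = (r + 1) ^ 8 * 2 ^ 7 := by ring
        _ ≤ (r + 1) ^ 8 * (r + 1) ^ 7 := by
            gcongr
            omega
        _ = (r + 1) ^ 15 := by ring
    exact_mod_cast hcard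

end Pool.Agent.N591.FG
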